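import Mathlib

set_option autoImplicit false

namespace Pool.Agent.Lib.MP_6a66b4_co

open scoped Pointwise

universe u

/-- Multiplication of the Heisenberg group `H(ℝ)`. -/
def hmul (p q : ℝ × ℝ × ℝ) : ℝ × ℝ × ℝ :=
  (p.1 + q.1, p.2.1 + q.2.1, p.2.2 + q.2.2 + p.1 * q.2.1)

/-- Inverse in the Heisenberg group `H(ℝ)`. -/
def hinv (p : ℝ × ℝ × ℝ) : ℝ × ℝ × ℝ :=
  (-p.1, -p.2.1, -p.2.2 + p.1 * p.2.1)

/-- `B` is a `K`-approximate group: it contains `1`, is closed under inverses, and `B²` is covered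
by at most `K` left translates of `B`. -/
def IsApproxGroup {G : Type u} [Group G] (K : ℝ) (B : Set G) : Prop :=
  1 ∈ B ∧ (∀ b ∈ B, b⁻¹ ∈ B) ∧
    ∃ X : Finset G, (X.card : ℝ) ≤ K ∧ ∀ b ∈ B, ∀ c ∈ B, ∃ x ∈ X, ∃ e ∈ B, b * c = x * e

/-- `B` is a `K`-approximate group, and `φ`, considered on `B ^ m`, satisfies: (1) its values on `B`
have first two coordinates in `(1/N)ℤ` and all coordinates bounded by `10`; (2) `φ(B)` meets the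
fibre `|z| ≤ 10` over every point of the grid `((1/N)ℤ ∩ [-1,1])²`; (3) whenever `b`, `c` and `b c`
lie in `B ^ m`, the cocycle `φ(c)⁻¹ φ(b)⁻¹ φ(b c)` is of the form `(0,0,z)` with `|z| ≤ 10/N`.
For `m = 1` these are the admissible triples of the problem. -/
def AdmissibleOnPower {G : Type u} [Group G] (K : ℝ) (N m : ℕ) (B : Set G)
    (φ : G → ℝ × ℝ × ℝ) : Prop :=
  IsApproxGroup K B ∧
  (∀ b ∈ B, (∃ i : ℤ, (φ b).1 = i / N) ∧ (∃ j : ℤ, (φ b).2.1 = j / N) ∧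
    |(φ b).1| ≤ 10 ∧ |(φ b).2.1| ≤ 10 ∧ |(φ b).2.2| ≤ 10) ∧
  (∀ i j : ℤ, |(i : ℝ) / N| ≤ 1 → |(j : ℝ) / N| ≤ 1 →
    ∃ z : ℝ, |z| ≤ 10 ∧ ∃ b ∈ B, φ b = ((i : ℝ) / N, (j : ℝ) / N, z)) ∧
  (∀ b ∈ B ^ m, ∀ c ∈ B ^ m, b * c ∈ B ^ m →
    ∃ z : ℝ, |z| ≤ 10 / N ∧ hmul (hinv (φ c)) (hmul (hinv (φ b)) (φ (b * c))) = (0, 0, z))

end Pool.Agent.Lib.MP_6a66b4_co
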