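import Mathlib

set_option autoImplicit false

/-! A lemma of Sanders: small doubling gives a large set `S` with `S^k ⊆ B^4`. -/

namespace Pool.Agent.Lib.MP_6a66b4_co

open scoped Pointwise
open Finset

universe u

/-- the sequence of densities -/
noncomputable def tseq (K : ℝ) : ℕ → ℝ
  | 0 => 1
  | (i + 1) => tseq K i ^ 2 / (2 * K)

lemma tseq_pos {K : ℝ} (hK : 1 ≤ K) (i : ℕ) : 0 < tseq K i := by
  induction i with
  | zero => simp [tseq]
  | succ i ih => simp only [tseq]; positivity

lemma tseq_le_one {K : ℝ} (hK : 1 ≤ K) (i : ℕ) : tseq K i ≤ 1 := by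
  induction i with
  | zero => simp [tseq]
  | succ i ih =>
    simp only [tseq]
    rw [div_le_one (by positivity)]
    have := tseq_pos hK i
    nlinarith

lemma tseq_succ_le {K : ℝ} (hK : 1 ≤ K) (i : ℕ) : tseq K (i + 1) ≤ tseq K i := by
  simp only [tseq]
  rw [div_le_iff₀ (by positivity)]
  have := tseq_pos hK i
  have := tseq_le_one hK i
  nlinarith

lemma tseq_anti {K : ℝ} (hK : 1 ≤ K) {i j : ℕ} (h : i ≤ j) : tseq K j ≤ tseq K i := by
  induction h with
  | refl => exact le_rfl
  | step _ ih => exact (tseq_succ_le hK _).trans ih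

/-- **Sanders' lemma** -/
theorem sanders (K : ℝ) (hK : 1 ≤ K) (k : ℕ) : ∃ τ : ℝ, 0 < τ ∧
    ∀ (G : Type u) [Group G] [DecidableEq G] (B : Finset G), (1 : G) ∈ B → B⁻¹ = B →
      ((B * B).card : ℝ) ≤ K * B.card →
      ∃ S : Finset G, (1 : G) ∈ S ∧ S⁻¹ = S ∧ S ⊆ B * B ∧ τ * B.card ≤ S.card ∧ S ^ k ⊆ B ^ 4 := by
  set ε : ℝ := 1 / (2 * (k + 1)) with hε
  have hεpos : 0 < ε := by positivity
  have hεle : ε ≤ 1 / 2 := by
    rw [hε]
    apply one_div_le_one_div_of_le (by norm_num)
    have : (0 : ℝ) ≤ k := Nat.cast_nonneg k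
    linarith
  have hkε : (k : ℝ) * ε < 1 := by
    rw [hε]
    have : (0 : ℝ) ≤ k := Nat.cast_nonneg k
    rw [mul_one_div, div_lt_one (by positivity)]
    linarith
  obtain ⟨L, hL⟩ := exists_pow_lt_of_lt_one (show (0 : ℝ) < 1 / K by positivity)
    (show 1 - ε < 1 by linarith)
  refine ⟨tseq K L / 2, by have := tseq_pos hK L; positivity, ?_⟩
  intro G _ _ B h1 hinv hdbl
  have hBpos : 0 < B.card := card_pos.mpr ⟨1, h1⟩
  have hBpos' : (0 : ℝ) < B.card := by exact_mod_cast hBpos
  have hex : ∀ i : ℕ, ∃ A ∈ B.powerset.filter (fun A => tseq K i * B.card ≤ (A.card : ℝ)),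
      ∀ A' ∈ B.powerset.filter (fun A => tseq K i * B.card ≤ (A.card : ℝ)),
        (A * B).card ≤ (A' * B).card := by
    intro i
    apply exists_min_image
    refine ⟨B, ?_⟩
    rw [mem_filter, mem_powerset]
    refine ⟨Subset.rfl, ?_⟩
    have := tseq_le_one hK i
    nlinarith
  choose A hA hmin using hex
  have hAB : ∀ i, A i ⊆ B := fun i => mem_powerset.mp (mem_filter.mp (hA i)).1
  have hAc : ∀ i, tseq K i * B.card ≤ ((A i).card : ℝ) := fun i => (mem_filter.mp (hA i)).2
  have hAne : ∀ i, (A i).Nonempty := by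
    intro i
    rw [← card_pos]
    have h2 := hAc i
    have h3 := tseq_pos hK i
    have : (0 : ℝ) < (A i).card := lt_of_lt_of_le (by positivity) h2
    exact_mod_cast this
  -- a good index
  obtain ⟨i, hiL, hi⟩ : ∃ i < L, (1 - ε) * ((A i * B).card : ℝ) ≤ ((A (i + 1) * B).card : ℝ) := by
    by_contra hcon
    push Not at hcon
    have h2 : ∀ j ≤ L, ((A j * B).card : ℝ) ≤ (1 - ε) ^ j * (K * B.card) := by
      intro j
      induction j with
      | zero =>
        intro _
        rw [pow_zero, one_mul]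
        refine le_trans ?_ hdbl
        exact_mod_cast card_le_card (mul_subset_mul_right (hAB 0))
      | succ j ih =>
        intro hj
        have h3 := ih (by omega)
        have h4 := hcon j (by omega)
        rw [pow_succ]
        have h5 : 0 < 1 - ε := by linarith
        calc ((A (j + 1) * B).card : ℝ) ≤ (1 - ε) * ((A j * B).card : ℝ) := h4.le
          _ ≤ (1 - ε) * ((1 - ε) ^ j * (K * B.card)) := by gcongr
          _ = _ := by ring
    have h3 := h2 L le_rfl
    have h4 : (B.card : ℝ) ≤ ((A L * B).card : ℝ) := by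
      exact_mod_cast card_le_card_mul_left (hAne L)
    have h5 : (1 - ε) ^ L * (K * B.card) < B.card := by
      have : (1 - ε) ^ L * K < 1 := by
        rw [lt_div_iff₀ (by positivity)] at hL
        exact hL
      nlinarith
    linarith
  set A' := A i with hA'
  set m := (A' * B).card with hm
  set t := tseq K i with ht
  have ht0 : 0 < t := tseq_pos hK i
  have ht1 : t ≤ 1 := tseq_le_one hK i
  let S : Finset G := (B * B).filter (fun g => tseq K (i + 1) * B.card ≤ ((A' ∩ g • A').card : ℝ))
  have hSmem : ∀ g, g ∈ S ↔ g ∈ B * B ∧ tseq K (i + 1) * B.card ≤ ((A' ∩ g • A').card : ℝ) := by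
    intro g; exact mem_filter
  -- inverse of products
  have hBB : ∀ g, g ∈ B * B → g⁻¹ ∈ B * B := by
    intro g hg
    have : (B * B)⁻¹ = B * B := by rw [mul_inv_rev, hinv]
    rw [← this]
    exact inv_mem_inv hg
  -- key expansion estimate
  have hstep : ∀ g ∈ S, (((g • (A' * B)) \ (A' * B)).card : ℝ) ≤ ε * m := by
    intro g hg
    obtain ⟨_, hg2⟩ := (hSmem g).mp hg
    have h2 : A' ∩ g • A' ∈ B.powerset.filter (fun A => tseq K (i + 1) * B.card ≤ (A.card : ℝ)) := by
      rw [mem_filter, mem_powerset]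
      exact ⟨inter_subset_left.trans (hAB i), hg2⟩
    have h3 := hmin (i + 1) _ h2
    have h4 : (A' ∩ g • A') * B ⊆ (g • (A' * B)) ∩ (A' * B) := by
      intro x hx
      obtain ⟨y, hy, b, hb, rfl⟩ := mem_mul.mp hx
      rw [mem_inter] at hy
      rw [mem_inter]
      refine ⟨?_, mul_mem_mul hy.1 hb⟩
      rw [← smul_mul_assoc]
      exact mul_mem_mul hy.2 hb
    have h5 : ((A (i + 1) * B).card : ℝ) ≤ (((g • (A' * B)) ∩ (A' * B)).card : ℝ) := by
      exact_mod_cast h3.trans (card_le_card h4)
    have h6 : (((g • (A' * B)) \ (A' * B)).card : ℝ) + (((g • (A' * B)) ∩ (A' * B)).card : ℝ) = m := by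
      have := card_sdiff_add_card_inter (g • (A' * B)) (A' * B)
      rw [card_smul_finset] at this
      exact_mod_cast this
    linarith
  have hword : ∀ (n : ℕ), ∀ w ∈ S ^ n, (((w • (A' * B)) \ (A' * B)).card : ℝ) ≤ n * (ε * m) := by
    intro n
    induction n with
    | zero =>
      intro w hw
      rw [pow_zero, mem_one] at hw
      subst hw
      simp
    | succ n ih =>
      intro w hw
      rw [pow_succ'] at hw
      obtain ⟨s, hs, w', hw', rfl⟩ := mem_mul.mp hw
      have h2 : ((s * w') • (A' * B)) \ (A' * B) ⊆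
          s • ((w' • (A' * B)) \ (A' * B)) ∪ ((s • (A' * B)) \ (A' * B)) := by
        intro x hx
        rw [mem_sdiff] at hx
        obtain ⟨hx1, hx2⟩ := hx
        rw [mul_smul] at hx1
        obtain ⟨y, hy, rfl⟩ := mem_smul_finset.mp hx1
        rw [mem_union]
        by_cases hyA : y ∈ A' * B
        · right
          rw [mem_sdiff]
          exact ⟨smul_mem_smul_finset hyA, hx2⟩
        · left
          exact smul_mem_smul_finset (mem_sdiff.mpr ⟨hy, hyA⟩)
      have h3 : ((((s * w') • (A' * B)) \ (A' * B)).card : ℝ) ≤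
          (((w' • (A' * B)) \ (A' * B)).card : ℝ) + (((s • (A' * B)) \ (A' * B)).card : ℝ) := by
        have h4 := (card_le_card h2).trans (card_union_le _ _)
        rw [card_smul_finset] at h4
        exact_mod_cast h4
      have h5 := ih w' hw'
      have h6 := hstep s hs
      push_cast
      linarith
  have hmpos : (0 : ℝ) < m := by
    have : 0 < m := card_pos.mpr ((hAne i).mul ⟨1, h1⟩)
    exact_mod_cast this
  refine ⟨S, ?_, ?_, filter_subset _ _, ?_, ?_⟩
  · rw [hSmem]
    refine ⟨by simpa using mul_mem_mul h1 h1, ?_⟩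
    rw [one_smul, inter_self]
    exact (mul_le_mul_of_nonneg_right (tseq_succ_le hK i) hBpos'.le).trans (hAc i)
  · -- symmetric
    have hsym : ∀ g, g ∈ S → g⁻¹ ∈ S := by
      intro g hg
      rw [hSmem] at hg ⊢
      refine ⟨hBB g hg.1, ?_⟩
      have : (A' ∩ g⁻¹ • A').card = (A' ∩ g • A').card := by
        rw [← card_smul_finset g (A' ∩ g⁻¹ • A'), smul_finset_inter, smul_smul, mul_inv_cancel,
          one_smul, inter_comm]
      rw [this]
      exact hg.2
    ext g
    rw [mem_inv']
    constructor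
    · intro h; have := hsym _ h; rwa [inv_inv] at this
    · exact hsym g
  · -- size
    have hsum : ∑ g ∈ B * B, (A' ∩ g • A').card = A'.card * A'.card := by
      rw [← card_product]
      have hmaps : ∀ p ∈ A' ×ˢ A', p.1 * p.2⁻¹ ∈ B * B := by
        intro p hp
        rw [mem_product] at hp
        refine mul_mem_mul (hAB i hp.1) ?_
        rw [← hinv]
        exact inv_mem_inv (hAB i hp.2)
      rw [card_eq_sum_card_fiberwise hmaps]
      refine sum_congr rfl (fun g _ => ?_)
      refine card_bij (fun x _ => (x, g⁻¹ * x)) ?_ ?_ ?_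
      · intro x hx
        rw [mem_inter] at hx
        rw [mem_filter, mem_product]
        refine ⟨⟨hx.1, ?_⟩, by simp⟩
        obtain ⟨y, hy, hyx⟩ := mem_smul_finset.mp hx.2
        rw [← hyx, smul_eq_mul, inv_mul_cancel_left]
        exact hy
      · intro x _ y _ h
        exact (Prod.mk.inj h).1
      · rintro ⟨x, y⟩ hp
        rw [mem_filter, mem_product] at hp
        obtain ⟨⟨hx, hy⟩, hg⟩ := hp
        simp only at hg hx hy
        refine ⟨x, ?_, ?_⟩
        · rw [mem_inter]
          refine ⟨hx, mem_smul_finset.mpr ⟨y, hy, ?_⟩⟩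
          rw [smul_eq_mul, ← hg]; group
        · rw [← hg]; simp
    have hsplit : ((A'.card : ℝ)) * A'.card ≤
        S.card * A'.card + ((B * B).card : ℝ) * (tseq K (i + 1) * B.card) := by
      have h2 : ((A'.card * A'.card : ℕ) : ℝ) = ∑ g ∈ B * B, ((A' ∩ g • A').card : ℝ) := by
        rw [← hsum]; push_cast; rfl
      have h3 : ∑ g ∈ B * B, ((A' ∩ g • A').card : ℝ) =
          ∑ g ∈ S, ((A' ∩ g • A').card : ℝ) +
          ∑ g ∈ (B * B).filter (fun g => ¬ tseq K (i + 1) * B.card ≤ ((A' ∩ g • A').card : ℝ)),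
            ((A' ∩ g • A').card : ℝ) := by
        exact (sum_filter_add_sum_filter_not _ _ _).symm
      have h4 : ∑ g ∈ S, ((A' ∩ g • A').card : ℝ) ≤ S.card * A'.card := by
        have := sum_le_card_nsmul S (fun g => ((A' ∩ g • A').card : ℝ)) (A'.card : ℝ)
          (fun g _ => by exact_mod_cast card_le_card inter_subset_left)
        simpa using this
      have h5 : ∑ g ∈ (B * B).filter (fun g => ¬ tseq K (i + 1) * B.card ≤
          ((A' ∩ g • A').card : ℝ)), ((A' ∩ g • A').card : ℝ) ≤
          ((B * B).card : ℝ) * (tseq K (i + 1) * B.card) := by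
        have h6 := sum_le_card_nsmul ((B * B).filter (fun g => ¬ tseq K (i + 1) * B.card ≤
          ((A' ∩ g • A').card : ℝ))) (fun g => ((A' ∩ g • A').card : ℝ))
          (tseq K (i + 1) * B.card) (fun g hg => (not_le.mp (mem_filter.mp hg).2).le)
        rw [nsmul_eq_mul] at h6
        refine h6.trans ?_
        have h7 : (0 : ℝ) ≤ tseq K (i + 1) * B.card := by
          have := tseq_pos hK (i + 1); positivity
        apply mul_le_mul_of_nonneg_right _ h7
        exact_mod_cast card_le_card (filter_subset _ _)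
      have : ((A'.card : ℝ)) * A'.card = ((A'.card * A'.card : ℕ) : ℝ) := by push_cast; rfl
      rw [this, h2, h3]
      linarith
    have h2 : ((B * B).card : ℝ) * (tseq K (i + 1) * B.card) ≤ (t * B.card) * (t * B.card) / 2 := by
      have h3 : tseq K (i + 1) = t ^ 2 / (2 * K) := rfl
      rw [h3]
      calc ((B * B).card : ℝ) * (t ^ 2 / (2 * K) * B.card)
          ≤ (K * B.card) * (t ^ 2 / (2 * K) * B.card) := by gcongr
        _ = (t * B.card) * (t * B.card) / 2 := by field_simp
    have h3 := hAc i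
    have h4 : (0 : ℝ) < A'.card := by exact_mod_cast card_pos.mpr (hAne i)
    have h5 : (t * B.card) * (t * B.card) ≤ (A'.card : ℝ) * A'.card := by
      have : 0 ≤ t * B.card := by positivity
      nlinarith
    have h6 : (A'.card : ℝ) * A'.card / 2 ≤ S.card * A'.card := by linarith
    have h7 : (A'.card : ℝ) / 2 ≤ S.card := by
      have h8 : (A'.card : ℝ) / 2 * A'.card ≤ S.card * A'.card := by linarith
      exact le_of_mul_le_mul_right h8 h4
    have h8 : tseq K L ≤ t := tseq_anti hK hiL.le
    calc tseq K L / 2 * B.card ≤ t / 2 * B.card := by gcongr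
      _ = t * B.card / 2 := by ring
      _ ≤ A'.card / 2 := by gcongr
      _ ≤ S.card := h7
  · -- powers
    intro w hw
    have h2 := hword k w hw
    have h3 : (((w • (A' * B)) \ (A' * B)).card : ℝ) < m := by
      calc _ ≤ _ := h2
        _ = (k * ε) * m := by ring
        _ < 1 * m := by gcongr
        _ = m := one_mul _
    have h4 : ((w • (A' * B)) ∩ (A' * B)).Nonempty := by
      by_contra hne
      rw [not_nonempty_iff_eq_empty] at hne
      have h5 := card_sdiff_add_card_inter (w • (A' * B)) (A' * B)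
      rw [hne, card_empty, card_smul_finset, add_zero] at h5
      rw [h5] at h3
      exact lt_irrefl _ h3
    obtain ⟨x, hx⟩ := h4
    rw [mem_inter] at hx
    obtain ⟨y, hy, hyx⟩ := mem_smul_finset.mp hx.1
    have h5 : w = x * y⁻¹ := by rw [← hyx, smul_eq_mul]; group
    have hsub : A' * B ⊆ B * B := mul_subset_mul_right (hAB i)
    have h6 : x ∈ B * B := hsub hx.2
    have h7 : y⁻¹ ∈ B * B := hBB _ (hsub hy)
    rw [h5]
    have h8 : B ^ 4 = (B * B) * (B * B) := by
      simp only [pow_succ, pow_zero, one_mul, mul_assoc]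
    rw [h8]
    exact mul_mem_mul h6 h7

end Pool.Agent.Lib.MP_6a66b4_co
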