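import Mathlib
import Pool.Agent.Lib.MP_6a66b4_co.Sanders

set_option autoImplicit false

namespace Pool.Agent.Lib.MP_6a66b4_co

open scoped Pointwise
open Finset

universe u

variable {G : Type u} [Group G] [DecidableEq G]

/-- the data of an approximate homomorphism on `B ^ 12`, in scaled coordinates -/
structure Loc (B : Finset G) (N : ℕ) (x y Z : G → ℝ) : Prop where
  one_mem : (1 : G) ∈ B
  inv_eq : B⁻¹ = B
  Npos : 0 < N
  addx : ∀ b ∈ B ^ 12, ∀ c ∈ B ^ 12, b * c ∈ B ^ 12 → x (b * c) = x b + x c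
  addy : ∀ b ∈ B ^ 12, ∀ c ∈ B ^ 12, b * c ∈ B ^ 12 → y (b * c) = y b + y c
  addZ : ∀ b ∈ B ^ 12, ∀ c ∈ B ^ 12, b * c ∈ B ^ 12 →
    |Z (b * c) - Z b - Z c - x b * y c / N| ≤ 10
  isInt : ∀ b ∈ B, ∃ i j : ℤ, x b = i ∧ y b = j ∧ |i| ≤ 10 * N ∧ |j| ≤ 10 * N
  grid : ∀ i j : ℤ, |i| ≤ N → |j| ≤ N → ∃ b ∈ B, x b = i ∧ y b = j

namespace Loc

variable {B : Finset G} {N : ℕ} {x y Z : G → ℝ}

lemma mono (h : Loc B N x y Z) {i j : ℕ} (hij : i ≤ j) : B ^ i ⊆ B ^ j :=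
  pow_subset_pow_right h.one_mem hij

lemma mul_mem (h : Loc B N x y Z) {i j k : ℕ} {a b : G} (ha : a ∈ B ^ i) (hb : b ∈ B ^ j)
    (hk : i + j ≤ k) : a * b ∈ B ^ k := by
  apply h.mono hk
  rw [pow_add]
  exact mul_mem_mul ha hb

lemma inv_mem (h : Loc B N x y Z) {i : ℕ} {a : G} (ha : a ∈ B ^ i) : a⁻¹ ∈ B ^ i := by
  have : (B ^ i)⁻¹ = B ^ i := by rw [← inv_pow, h.inv_eq]
  rw [← this]
  exact inv_mem_inv ha

lemma mem1 {a : G} (ha : a ∈ B) : a ∈ B ^ 1 := by rwa [pow_one]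

lemma one12 (h : Loc B N x y Z) (i : ℕ) : (1 : G) ∈ B ^ i := by
  have := h.mono (Nat.zero_le i)
  exact this (by simp)

lemma at_one (h : Loc B N x y Z) : x 1 = 0 ∧ y 1 = 0 ∧ |Z 1| ≤ 10 := by
  have h1 := h.one12 12
  have ax := h.addx 1 h1 1 h1 (by rwa [mul_one])
  have ay := h.addy 1 h1 1 h1 (by rwa [mul_one])
  have az := h.addZ 1 h1 1 h1 (by rwa [mul_one])
  rw [mul_one] at ax ay az
  have hx : x 1 = 0 := by linarith
  have hy : y 1 = 0 := by linarith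
  refine ⟨hx, hy, ?_⟩
  rw [hx] at az
  have e : Z 1 - Z 1 - Z 1 - 0 * y 1 / N = - Z 1 := by ring
  rw [e, abs_neg] at az
  exact az

lemma at_inv (h : Loc B N x y Z) {a : G} (ha : a ∈ B ^ 12) :
    x a⁻¹ = - x a ∧ y a⁻¹ = - y a ∧ |Z a + Z a⁻¹ - x a * y a / N| ≤ 20 := by
  obtain ⟨hx, hy, hz⟩ := h.at_one
  have hi := h.inv_mem ha
  have h1 := h.one12 12
  have ax := h.addx a ha a⁻¹ hi (by rwa [mul_inv_cancel])
  have ay := h.addy a ha a⁻¹ hi (by rwa [mul_inv_cancel])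
  have az := h.addZ a ha a⁻¹ hi (by rwa [mul_inv_cancel])
  rw [mul_inv_cancel] at ax ay az
  have hxa : x a⁻¹ = - x a := by linarith
  have hya : y a⁻¹ = - y a := by linarith
  refine ⟨hxa, hya, ?_⟩
  rw [hya] at az
  have e : Z 1 - Z a - Z a⁻¹ - x a * -y a / N = Z 1 - (Z a + Z a⁻¹ - x a * y a / N) := by ring
  rw [e] at az
  rw [abs_le] at az hz ⊢
  constructor <;> linarith

lemma conj (h : Loc B N x y Z) {a b : G} (ha : a ∈ B ^ 4) (hb : b ∈ B) :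
    a * b * a⁻¹ ∈ B ^ 9 ∧ x (a * b * a⁻¹) = x b ∧ y (a * b * a⁻¹) = y b ∧
      |Z (a * b * a⁻¹) - Z b - (x a * y b - x b * y a) / N| ≤ 40 := by
  have hb1 := mem1 hb
  have hai := h.inv_mem ha
  have hab : a * b ∈ B ^ 5 := h.mul_mem ha hb1 (by norm_num)
  have haba : a * b * a⁻¹ ∈ B ^ 9 := h.mul_mem hab hai (by norm_num)
  have m4 := h.mono (show 4 ≤ 12 by norm_num)
  have m1 := h.mono (show 1 ≤ 12 by norm_num)
  have m5 := h.mono (show 5 ≤ 12 by norm_num)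
  have m9 := h.mono (show 9 ≤ 12 by norm_num)
  obtain ⟨ix, iy, iz⟩ := h.at_inv (m4 ha)
  have x1 := h.addx a (m4 ha) b (m1 hb1) (m5 hab)
  have y1 := h.addy a (m4 ha) b (m1 hb1) (m5 hab)
  have z1 := h.addZ a (m4 ha) b (m1 hb1) (m5 hab)
  have x2 := h.addx (a * b) (m5 hab) a⁻¹ (m4 hai) (m9 haba)
  have y2 := h.addy (a * b) (m5 hab) a⁻¹ (m4 hai) (m9 haba)
  have z2 := h.addZ (a * b) (m5 hab) a⁻¹ (m4 hai) (m9 haba)
  refine ⟨haba, by linarith, by linarith, ?_⟩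
  rw [x1, iy] at z2
  have e : Z (a * b * a⁻¹) - Z b - (x a * y b - x b * y a) / N =
      (Z (a * b * a⁻¹) - Z (a * b) - Z a⁻¹ - (x a + x b) * -y a / N) +
      (Z (a * b) - Z a - Z b - x a * y b / N) + (Z a + Z a⁻¹ - x a * y a / N) := by ring
  rw [e]
  rw [abs_le] at z1 z2 iz ⊢
  constructor <;> linarith

/-- number of elements of a fibre of `B ^ 2` -/
lemma card_fiber (h : Loc B N x y Z) (W : Finset G) (hW : W ⊆ B ^ 2) (x0 y0 : ℝ)
    (hWx : ∀ w ∈ W, x w = x0 ∧ y w = y0) :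
    (2 * N + 1) ^ 2 * W.card ≤ (B ^ 3).card := by
  have hg : ∀ p : ℤ × ℤ, ∃ b : G, p ∈ Icc (-(N : ℤ)) N ×ˢ Icc (-(N : ℤ)) N →
      b ∈ B ∧ x b = p.1 ∧ y b = p.2 := by
    intro p
    by_cases hp : p ∈ Icc (-(N : ℤ)) N ×ˢ Icc (-(N : ℤ)) N
    · rw [mem_product, mem_Icc, mem_Icc] at hp
      obtain ⟨b, hb, h1, h2⟩ := h.grid p.1 p.2 (abs_le.mpr hp.1) (abs_le.mpr hp.2)
      exact ⟨b, fun _ => ⟨hb, h1, h2⟩⟩
    · exact ⟨1, fun hp' => absurd hp' hp⟩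
  choose bf hbf using hg
  have m1 := h.mono (show 1 ≤ 12 by norm_num)
  have m2 := h.mono (show 2 ≤ 12 by norm_num)
  have m3 := h.mono (show 3 ≤ 12 by norm_num)
  have hcard : ((Icc (-(N : ℤ)) N ×ˢ Icc (-(N : ℤ)) N) ×ˢ W).card = (2 * N + 1) ^ 2 * W.card := by
    rw [card_product, card_product, Int.card_Icc]
    have : ((N : ℤ) + 1 - -(N : ℤ)).toNat = 2 * N + 1 := by omega
    rw [this]; ring
  rw [← hcard]
  refine card_le_card_of_injOn (fun q => bf q.1 * q.2) ?_ ?_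
  · rintro ⟨p, w⟩ hq
    rw [coe_product, Set.mem_prod] at hq
    obtain ⟨hb, _, _⟩ := hbf p (mem_coe.mp hq.1)
    exact h.mul_mem (mem1 hb) (hW hq.2) (by norm_num)
  · rintro ⟨p, w⟩ hq ⟨p', w'⟩ hq' heq
    rw [coe_product, Set.mem_prod] at hq hq'
    obtain ⟨hb, hbx, hby⟩ := hbf p (mem_coe.mp hq.1)
    obtain ⟨hb', hbx', hby'⟩ := hbf p' (mem_coe.mp hq'.1)
    have hw : w ∈ W := hq.2
    have hw' : w' ∈ W := hq'.2
    simp only at heq
    have e1 := h.addx _ (m1 (mem1 hb)) w (m2 (hW hw)) (m3 (h.mul_mem (mem1 hb) (hW hw) (by norm_num)))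
    have e2 := h.addx _ (m1 (mem1 hb')) w' (m2 (hW hw')) (m3 (h.mul_mem (mem1 hb') (hW hw') (by norm_num)))
    have e3 := h.addy _ (m1 (mem1 hb)) w (m2 (hW hw)) (m3 (h.mul_mem (mem1 hb) (hW hw) (by norm_num)))
    have e4 := h.addy _ (m1 (mem1 hb')) w' (m2 (hW hw')) (m3 (h.mul_mem (mem1 hb') (hW hw') (by norm_num)))
    rw [heq] at e1 e3
    have hx1 : (p.1 : ℝ) = p'.1 := by
      rw [← hbx, ← hbx']; have := (hWx w hw).1; have := (hWx w' hw').1; linarith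
    have hy1 : (p.2 : ℝ) = p'.2 := by
      rw [← hby, ← hby']; have := (hWx w hw).2; have := (hWx w' hw').2; linarith
    have hp : p = p' := Prod.ext (by exact_mod_cast hx1) (by exact_mod_cast hy1)
    subst hp
    rw [mul_left_cancel heq]

/-- the main counting bound -/
lemma card_window (h : Loc B N x y Z) (W : Finset G) (hW : W ⊆ B ^ 9) (x0 y0 R : ℝ) (s : ℕ)
    (hs : 100 + R < s) (hR : 0 ≤ R)
    (hWx : ∀ w ∈ W, x w = x0 ∧ y w = y0) (hWz : ∀ w ∈ W, ∀ w' ∈ W, |Z w - Z w'| ≤ R) :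
    (2 * N + 1) * (N / 2 + 1) * (N / (2 * s) + 1) * W.card ≤ (B ^ 12).card := by
  have hspos : 0 < s := by
    have : (0 : ℝ) < s := by linarith
    exact_mod_cast this
  have hNpos : (0 : ℝ) < N := by exact_mod_cast h.Npos
  have hg : ∀ p : ℤ × ℕ, ∃ b : G, p ∈ Icc (-(N : ℤ)) N ×ˢ range (N / 2 + 1) →
      b ∈ B ∧ x b = p.1 ∧ y b = ((N : ℝ) - p.2) := by
    intro p
    by_cases hp : p ∈ Icc (-(N : ℤ)) N ×ˢ range (N / 2 + 1)
    · rw [mem_product, mem_Icc, mem_range] at hp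
      have h2 : |(N : ℤ) - p.2| ≤ N := by
        rw [abs_le]
        constructor <;> omega
      obtain ⟨b, hb, h1, h2⟩ := h.grid p.1 ((N : ℤ) - p.2) (abs_le.mpr hp.1) h2
      exact ⟨b, fun _ => ⟨hb, h1, by rw [h2]; push_cast; ring⟩⟩
    · exact ⟨1, fun hp' => absurd hp' hp⟩
  choose bf hbf using hg
  have hv : ∀ k : ℕ, ∃ v : G, k ∈ range (N / (2 * s) + 1) →
      v ∈ B ∧ x v = (2 * s * k : ℕ) ∧ y v = 0 := by
    intro k
    by_cases hk : k ∈ range (N / (2 * s) + 1)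
    · have hk' : k ≤ N / (2 * s) := by simpa [Nat.lt_succ_iff] using hk
      have hsk : 2 * s * k ≤ N := (Nat.mul_le_mul_left (2 * s) hk').trans (Nat.mul_div_le N (2 * s))
      obtain ⟨v, hv, h1, h2⟩ := h.grid ((2 * s * k : ℕ) : ℤ) 0 (by
        rw [abs_of_nonneg (by positivity)]; exact_mod_cast hsk) (by simp)
      exact ⟨v, fun _ => ⟨hv, by rw [h1]; push_cast; ring, by rw [h2]; simp⟩⟩
    · exact ⟨1, fun hk' => absurd hk' hk⟩
  choose vf hvf using hv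
  have m1 := h.mono (show 1 ≤ 12 by norm_num)
  have m3 := h.mono (show 3 ≤ 12 by norm_num)
  have m9 := h.mono (show 9 ≤ 12 by norm_num)
  -- the conjugates
  have hconj : ∀ p ∈ Icc (-(N : ℤ)) N ×ˢ range (N / 2 + 1), ∀ k ∈ range (N / (2 * s) + 1),
      vf k * bf p * (vf k)⁻¹ ∈ B ^ 3 ∧ x (vf k * bf p * (vf k)⁻¹) = p.1 ∧
      y (vf k * bf p * (vf k)⁻¹) = (N : ℝ) - p.2 ∧
      |Z (vf k * bf p * (vf k)⁻¹) - Z (bf p) - (2 * s * k : ℕ) * ((N : ℝ) - p.2) / N| ≤ 40 := by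
    intro p hp k hk
    obtain ⟨hb, hbx, hby⟩ := hbf p hp
    obtain ⟨hv, hvx, hvy⟩ := hvf k hk
    obtain ⟨_, cx, cy, cz⟩ := h.conj (h.mono (show 1 ≤ 4 by norm_num) (mem1 hv)) hb
    refine ⟨?_, by rw [cx, hbx], by rw [cy, hby], ?_⟩
    · exact h.mul_mem (h.mul_mem (mem1 hv) (mem1 hb) (show 1 + 1 ≤ 2 by norm_num))
        (h.inv_mem (mem1 hv)) (by norm_num)
    · rw [hvx, hvy, hby, mul_zero, sub_zero] at cz
      exact cz
  have hcard : (((Icc (-(N : ℤ)) N ×ˢ range (N / 2 + 1)) ×ˢ range (N / (2 * s) + 1)) ×ˢ W).card =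
      (2 * N + 1) * (N / 2 + 1) * (N / (2 * s) + 1) * W.card := by
    rw [card_product, card_product, card_product, Int.card_Icc, card_range, card_range]
    have : ((N : ℤ) + 1 - -(N : ℤ)).toNat = 2 * N + 1 := by omega
    rw [this]
  rw [← hcard]
  refine card_le_card_of_injOn (fun q => (vf q.1.2 * bf q.1.1 * (vf q.1.2)⁻¹) * q.2) ?_ ?_
  · rintro ⟨⟨p, k⟩, w⟩ hq
    rw [coe_product, Set.mem_prod, coe_product, Set.mem_prod] at hq
    obtain ⟨⟨hq1, hq2⟩, hq3⟩ := hq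
    obtain ⟨hc, _, _⟩ := hconj p (mem_coe.mp hq1) k (by simpa using hq2)
    exact h.mul_mem hc (hW hq3) (show 3 + 9 ≤ 12 by norm_num)
  · rintro ⟨⟨p, k⟩, w⟩ hq ⟨⟨p', k'⟩, w'⟩ hq' heq
    rw [coe_product, Set.mem_prod, coe_product, Set.mem_prod] at hq hq'
    obtain ⟨⟨hq1, hq2⟩, hq3⟩ := hq
    obtain ⟨⟨hq1', hq2'⟩, hq3'⟩ := hq'
    have hw : w ∈ W := hq3
    have hw' : w' ∈ W := hq3'
    have hp : p ∈ Icc (-(N : ℤ)) N ×ˢ range (N / 2 + 1) := mem_coe.mp hq1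
    have hp' : p' ∈ Icc (-(N : ℤ)) N ×ˢ range (N / 2 + 1) := mem_coe.mp hq1'
    obtain ⟨hc, hcx, hcy, hcz⟩ := hconj p hp k (by simpa using hq2)
    obtain ⟨hc', hcx', hcy', hcz'⟩ := hconj p' hp' k' (by simpa using hq2')
    simp only at heq
    have t1 := h.mul_mem hc (hW hw) (show 3 + 9 ≤ 12 by norm_num)
    have t1' := h.mul_mem hc' (hW hw') (show 3 + 9 ≤ 12 by norm_num)
    have a1 := h.addx _ (m3 hc) w (m9 (hW hw)) t1
    have a1' := h.addx _ (m3 hc') w' (m9 (hW hw')) t1'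
    have c1 := h.addy _ (m3 hc) w (m9 (hW hw)) t1
    have c1' := h.addy _ (m3 hc') w' (m9 (hW hw')) t1'
    have z1 := h.addZ _ (m3 hc) w (m9 (hW hw)) t1
    have z1' := h.addZ _ (m3 hc') w' (m9 (hW hw')) t1'
    rw [heq] at a1 c1 z1
    have hx1 : (p.1 : ℝ) = p'.1 := by
      rw [← hcx, ← hcx']; have := (hWx w hw).1; have := (hWx w' hw').1; linarith
    have hy1 : (p.2 : ℝ) = p'.2 := by
      have := (hWx w hw).2; have := (hWx w' hw').2; linarith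
    have hpp : p = p' := Prod.ext (by exact_mod_cast hx1) (by exact_mod_cast hy1)
    subst hpp
    rw [hcx, (hWx w hw).2] at z1
    rw [hcx', (hWx w' hw').2] at z1'
    have hz := hWz w hw w' hw'
    have hk : k = k' := by
      by_contra hne
      rw [mem_product, mem_range] at hp
      have hN2 : (N : ℝ) / 2 ≤ (N : ℝ) - p.2 := by
        have h1 : p.2 ≤ N / 2 := by omega
        have h2 : (p.2 : ℝ) ≤ N / 2 := by
          have h3 : 2 * p.2 ≤ N := by omega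
          have h4 : (2 : ℝ) * p.2 ≤ N := by exact_mod_cast h3
          linarith
        linarith
      have h3 : (s : ℝ) ≤ |((2 * s * k : ℕ) : ℝ) * ((N : ℝ) - p.2) / N -
          ((2 * s * k' : ℕ) : ℝ) * ((N : ℝ) - p.2) / N| := by
        have e : ((2 * s * k : ℕ) : ℝ) * ((N : ℝ) - p.2) / N -
          ((2 * s * k' : ℕ) : ℝ) * ((N : ℝ) - p.2) / N =
            (2 * (s : ℝ)) * (((N : ℝ) - p.2) / N) * ((k : ℝ) - k') := by
          push_cast; ring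
        rw [e, abs_mul]
        have h4 : (1 : ℝ) ≤ |(k : ℝ) - k'| := by
          have h5 : (1 : ℤ) ≤ |(k : ℤ) - k'| := by
            apply Int.one_le_abs
            omega
          exact_mod_cast h5
        have h6 : (0 : ℝ) < s := by exact_mod_cast hspos
        have h7 : (1 : ℝ) / 2 ≤ ((N : ℝ) - p.2) / N := by
          rw [le_div_iff₀ hNpos]; linarith
        have h8 : (s : ℝ) ≤ 2 * (s : ℝ) * (((N : ℝ) - p.2) / N) := by nlinarith
        rw [abs_of_nonneg (by linarith)]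
        nlinarith
      have h4 : |((2 * s * k : ℕ) : ℝ) * ((N : ℝ) - p.2) / N -
          ((2 * s * k' : ℕ) : ℝ) * ((N : ℝ) - p.2) / N| ≤ 100 + R := by
        rw [abs_le] at hcz hcz' z1 z1' hz ⊢
        constructor <;> linarith
      linarith
    subst hk
    rw [mul_left_cancel heq]

end Loc

end Pool.Agent.Lib.MP_6a66b4_co
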