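import Mathlib
import Pool.Agent.Lib.MP_6a66b4_co.Local

set_option autoImplicit false

namespace Pool.Agent.Lib.MP_6a66b4_co

open scoped Pointwise
open Finset

universe u

lemma pow_card_le {G : Type u} [Group G] [DecidableEq G] {B X : Finset G} (h : B * B ⊆ X * B)
    (j : ℕ) : (B ^ (j + 1)).card ≤ X.card ^ j * B.card := by
  have hsub : ∀ j : ℕ, B ^ (j + 1) ⊆ X ^ j * B := by
    intro j
    induction j with
    | zero => simp
    | succ j ih =>
      calc B ^ (j + 1 + 1) = B ^ (j + 1) * B := pow_succ _ _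
        _ ⊆ (X ^ j * B) * B := mul_subset_mul_right ih
        _ = X ^ j * (B * B) := mul_assoc _ _ _
        _ ⊆ X ^ j * (X * B) := mul_subset_mul_left h
        _ = X ^ (j + 1) * B := by rw [pow_succ, mul_assoc]
  refine (card_le_card (hsub j)).trans ((card_mul_le).trans ?_)
  gcongr
  exact card_pow_le

/-- a multiple of `i / N` in a given window -/
lemma exists_mult {N : ℕ} {κ : ℝ} (hκ : 0 < κ) (hκ1 : κ ≤ 1) {I : ℕ} (hN : 2 * I ≤ κ * N)
    (hN2 : 2 ≤ N) {i : ℤ} (hi : i ≠ 0) (hiI : |i| ≤ I) :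
    ∃ q : ℤ, |q| ≤ N ∧ κ / 2 ≤ i * q / N ∧ (i * q / N : ℝ) ≤ κ := by
  have hNpos : (0 : ℝ) < N := by
    have : 0 < N := by omega
    exact_mod_cast this
  have hi1 : (1 : ℝ) ≤ |(i : ℝ)| := by
    have : (1 : ℤ) ≤ |i| := Int.one_le_abs hi
    exact_mod_cast this
  have hiI' : |(i : ℝ)| ≤ I := by exact_mod_cast hiI
  set p : ℤ := ⌈κ * N / (2 * |(i : ℝ)|)⌉ with hp
  have hp1 : κ * N / (2 * |(i : ℝ)|) ≤ p := Int.le_ceil _
  have hp2 : (p : ℝ) < κ * N / (2 * |(i : ℝ)|) + 1 := Int.ceil_lt_add_one _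
  have hp0 : (0 : ℝ) ≤ p := by
    refine le_trans ?_ hp1
    positivity
  have hb1 : κ * N / 2 ≤ |(i : ℝ)| * p := by
    have := mul_le_mul_of_nonneg_left hp1 (abs_nonneg (i : ℝ))
    refine le_trans (le_of_eq ?_) this
    field_simp
  have hb2 : |(i : ℝ)| * p ≤ κ * N := by
    have h1 : |(i : ℝ)| * p ≤ |(i : ℝ)| * (κ * N / (2 * |(i : ℝ)|) + 1) :=
      mul_le_mul_of_nonneg_left hp2.le (abs_nonneg _)
    have h2 : |(i : ℝ)| * (κ * N / (2 * |(i : ℝ)|) + 1) = κ * N / 2 + |(i : ℝ)| := by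
      field_simp
    rw [h2] at h1
    linarith
  have hpN : (p : ℝ) ≤ N := by
    have h1 : κ * N / (2 * |(i : ℝ)|) ≤ N / 2 := by
      rw [div_le_div_iff₀ (by positivity) (by norm_num)]
      nlinarith
    have h2 : (2 : ℝ) ≤ N := by exact_mod_cast hN2
    linarith
  have hp0' : 0 ≤ p := by exact_mod_cast hp0
  have hpN' : p ≤ N := by exact_mod_cast hpN
  rcases lt_or_gt_of_ne hi with h | h
  · have h' : (i : ℝ) < 0 := by exact_mod_cast h
    rw [abs_of_neg h'] at hb1 hb2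
    refine ⟨-p, by rw [abs_neg, abs_of_nonneg hp0']; exact hpN', ?_, ?_⟩
    · push_cast
      rw [le_div_iff₀ hNpos]; linarith
    · push_cast
      rw [div_le_iff₀ hNpos]; linarith
  · have h' : (0 : ℝ) < i := by exact_mod_cast h
    rw [abs_of_pos h'] at hb1 hb2
    refine ⟨p, by rw [abs_of_nonneg hp0']; exact hpN', ?_, ?_⟩
    · rw [le_div_iff₀ hNpos]; linarith
    · rw [div_le_iff₀ hNpos]; linarith

namespace Loc

variable {G : Type u} [Group G] [DecidableEq G] {B : Finset G} {N : ℕ} {x y Z : G → ℝ}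

lemma int_pow (h : Loc B N x y Z) : ∀ j : ℕ, j ≤ 12 → ∀ b ∈ B ^ j, ∃ i k : ℤ, x b = i ∧ y b = k ∧
    |i| ≤ 10 * j * N ∧ |k| ≤ 10 * j * N := by
  intro j
  induction j with
  | zero =>
    intro _ b hb
    rw [pow_zero, mem_one] at hb
    subst hb
    obtain ⟨hx, hy, _⟩ := h.at_one
    exact ⟨0, 0, by simpa using hx, by simpa using hy, by simp, by simp⟩
  | succ j ih =>
    intro hj b hb
    have hb' := hb
    rw [pow_succ] at hb
    obtain ⟨b1, hb1, b2, hb2, rfl⟩ := mem_mul.mp hb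
    obtain ⟨i1, k1, hx1, hy1, hi1, hk1⟩ := ih (by omega) b1 hb1
    obtain ⟨i2, k2, hx2, hy2, hi2, hk2⟩ := h.isInt b2 hb2
    have m1 := h.mono (show j ≤ 12 by omega) hb1
    have m2 := h.mono (show 1 ≤ 12 by omega) (mem1 hb2)
    have m3 := h.mono hj hb'
    refine ⟨i1 + i2, k1 + k2, ?_, ?_, ?_, ?_⟩
    · rw [h.addx _ m1 _ m2 m3, hx1, hx2]; push_cast; ring
    · rw [h.addy _ m1 _ m2 m3, hy1, hy2]; push_cast; ring
    · refine (abs_add_le _ _).trans ?_
      push_cast; linarith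
    · refine (abs_add_le _ _).trans ?_
      push_cast; linarith

/-- existence of an element of `S * S` with small nonzero horizontal part -/
lemma exists_small (h : Loc B N x y Z) {K τ : ℝ} (hK : 1 ≤ K) (hτ : 0 < τ) {X : Finset G}
    (hXc : (X.card : ℝ) ≤ K) (hX : B * B ⊆ X * B) {S : Finset G} (hSinv : S⁻¹ = S)
    (hSB : S ⊆ B * B) (hSc : τ * B.card ≤ S.card) {I : ℕ} (hI : 1 ≤ I)
    (hIτ : 1700 * K ^ 2 < I ^ 2 * τ) (hNI : I ≤ N) :
    ∃ a ∈ S * S, ∃ i j : ℤ, x a = i ∧ y a = j ∧ |i| ≤ I ∧ |j| ≤ I ∧ (i ≠ 0 ∨ j ≠ 0) := by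
  have hB2 : B * B = B ^ 2 := by rw [pow_two]
  have hint : ∀ s : G, ∃ p : ℤ × ℤ, s ∈ S → x s = p.1 ∧ y s = p.2 ∧ |p.1| ≤ 20 * N ∧
      |p.2| ≤ 20 * N := by
    intro s
    by_cases hs : s ∈ S
    · obtain ⟨i, k, h1, h2, h3, h4⟩ := h.int_pow 2 (by norm_num) s (by rw [← hB2]; exact hSB hs)
      exact ⟨(i, k), fun _ => ⟨h1, h2, by push_cast at h3; linarith, by push_cast at h4; linarith⟩⟩
    · exact ⟨(0, 0), fun hs' => absurd hs' hs⟩
  choose π hπ using hint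
  by_contra hcon
  push Not at hcon
  -- two elements in the same cell have the same projection
  have hsame : ∀ s ∈ S, ∀ s' ∈ S, (π s).1 / (I : ℤ) = (π s').1 / (I : ℤ) →
      (π s).2 / (I : ℤ) = (π s').2 / (I : ℤ) → π s = π s' := by
    intro s hs s' hs' e1 e2
    by_contra hne
    obtain ⟨p1, p2, _, _⟩ := hπ s hs
    obtain ⟨p1', p2', _, _⟩ := hπ s' hs'
    have hs2 : s ∈ B ^ 2 := by rw [← hB2]; exact hSB hs
    have hs2' : s' ∈ B ^ 2 := by rw [← hB2]; exact hSB hs'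
    have m2 := h.mono (show 2 ≤ 12 by norm_num)
    have m4 := h.mono (show 4 ≤ 12 by norm_num)
    have hprod : s⁻¹ * s' ∈ B ^ 4 := h.mul_mem (h.inv_mem hs2) hs2' (by norm_num)
    obtain ⟨ix, iy, _⟩ := h.at_inv (m2 hs2)
    have hx := h.addx _ (m2 (h.inv_mem hs2)) _ (m2 hs2') (m4 hprod)
    have hy := h.addy _ (m2 (h.inv_mem hs2)) _ (m2 hs2') (m4 hprod)
    have hIpos : (0 : ℤ) < I := by exact_mod_cast hI
    have d1 := Int.emod_add_mul_ediv (π s).1 I
    have d1' := Int.emod_add_mul_ediv (π s').1 I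
    have d2 := Int.emod_add_mul_ediv (π s).2 I
    have d2' := Int.emod_add_mul_ediv (π s').2 I
    have r1 := Int.emod_nonneg (π s).1 hIpos.ne'
    have r1' := Int.emod_nonneg (π s').1 hIpos.ne'
    have r2 := Int.emod_nonneg (π s).2 hIpos.ne'
    have r2' := Int.emod_nonneg (π s').2 hIpos.ne'
    have q1 := Int.emod_lt_of_pos (π s).1 hIpos
    have q1' := Int.emod_lt_of_pos (π s').1 hIpos
    have q2 := Int.emod_lt_of_pos (π s).2 hIpos
    have q2' := Int.emod_lt_of_pos (π s').2 hIpos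
    rw [e1] at d1
    rw [e2] at d2
    have hsS : s⁻¹ ∈ S := by rw [← hSinv]; exact inv_mem_inv hs
    have := hcon (s⁻¹ * s') (mul_mem_mul hsS hs') ((π s').1 - (π s).1) ((π s').2 - (π s).2)
      (by rw [hx, ix, p1, p1']; push_cast; ring) (by rw [hy, iy, p2, p2']; push_cast; ring)
      (by rw [abs_le]; constructor <;> linarith) (by rw [abs_le]; constructor <;> linarith)
    apply hne
    have t1 : (π s').1 - (π s).1 = 0 := this.1
    have t2 : (π s').2 - (π s).2 = 0 := this.2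
    exact Prod.ext (by omega) (by omega)
  -- counting cells
  set cell : G → ℤ × ℤ := fun s => ((π s).1 / (I : ℤ), (π s).2 / (I : ℤ)) with hcell
  have hIpos : (0 : ℤ) < I := by exact_mod_cast hI
  have hIr : (0 : ℝ) < I := by exact_mod_cast hI
  have hN0 : 0 < N := h.Npos
  set Q : ℤ := 20 * N / I + 1 with hQ
  have hQpos : 0 ≤ Q := by
    have : 0 ≤ 20 * (N : ℤ) / I := by positivity
    omega
  have hcellmem : ∀ s ∈ S, cell s ∈ Icc (-Q) Q ×ˢ Icc (-Q) Q := by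
    intro s hs
    obtain ⟨_, _, b1, b2⟩ := hπ s hs
    have key : ∀ t : ℤ, |t| ≤ 20 * N → -Q ≤ t / I ∧ t / I ≤ Q := by
      intro t ht
      rw [abs_le] at ht
      constructor
      · rw [Int.le_ediv_iff_mul_le hIpos]
        have h1 : 20 * (N : ℤ) < (20 * N / I + 1) * I := Int.lt_mul_of_ediv_lt hIpos (by omega)
        have h2 : -Q * I = -((20 * N / I + 1) * I) := by rw [hQ]; ring
        rw [h2]; linarith
      · have h1 : t / I ≤ 20 * N / I := Int.ediv_le_ediv hIpos ht.2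
        omega
    rw [mem_product, mem_Icc, mem_Icc]
    exact ⟨key _ b1, key _ b2⟩
  have hfib : ∀ c ∈ Icc (-Q) Q ×ˢ Icc (-Q) Q,
      (((2 * N + 1) ^ 2 : ℕ) : ℝ) * ((S.filter (fun s => cell s = c)).card : ℝ) ≤ K ^ 2 * B.card := by
    intro c _
    have hbound : (2 * N + 1) ^ 2 * (S.filter (fun s => cell s = c)).card ≤ (B ^ 3).card := by
      rcases (S.filter (fun s => cell s = c)).eq_empty_or_nonempty with he | ⟨s0, hs0⟩
      · rw [he]; simp
      · rw [mem_filter] at hs0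
        apply h.card_fiber _ _ (x s0) (y s0)
        · intro w hw
          rw [mem_filter] at hw
          have e : cell w = cell s0 := hw.2.trans hs0.2.symm
          have := hsame w hw.1 s0 hs0.1 (congrArg Prod.fst e) (congrArg Prod.snd e)
          obtain ⟨a1, a2, _, _⟩ := hπ w hw.1
          obtain ⟨b1, b2, _, _⟩ := hπ s0 hs0.1
          rw [a1, a2, b1, b2, this]
          exact ⟨rfl, rfl⟩
        · intro w hw
          rw [mem_filter] at hw
          rw [← hB2]; exact hSB hw.1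
    have h2 := pow_card_le hX 2
    have h3 : (((2 * N + 1) ^ 2 * (S.filter (fun s => cell s = c)).card : ℕ) : ℝ) ≤
        ((X.card ^ 2 * B.card : ℕ) : ℝ) := by exact_mod_cast hbound.trans h2
    push_cast at h3 ⊢
    refine h3.trans ?_
    gcongr
  have hScard : (S.card : ℝ) = ∑ c ∈ Icc (-Q) Q ×ˢ Icc (-Q) Q,
      ((S.filter (fun s => cell s = c)).card : ℝ) := by
    rw [card_eq_sum_card_fiberwise hcellmem]
    push_cast; rfl
  have htot : (((2 * N + 1) ^ 2 : ℕ) : ℝ) * S.card ≤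
      (((Icc (-Q) Q ×ˢ Icc (-Q) Q).card : ℕ) : ℝ) * (K ^ 2 * B.card) := by
    rw [hScard, mul_sum]
    refine (sum_le_card_nsmul _ _ _ hfib).trans ?_
    rw [nsmul_eq_mul]
  have hcc : (((Icc (-Q) Q ×ˢ Icc (-Q) Q).card : ℕ) : ℝ) = (2 * Q + 1) ^ 2 := by
    rw [card_product, Int.card_Icc]
    have : ((Q + 1 - -Q).toNat : ℤ) = 2 * Q + 1 := by omega
    have h2 : (((Q + 1 - -Q).toNat : ℕ) : ℝ) = 2 * Q + 1 := by exact_mod_cast this
    push_cast
    rw [h2]; ring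
  rw [hcc] at htot
  have hQle : (2 * (Q : ℝ) + 1) ≤ 43 * N / I := by
    have h1 : (Q : ℝ) ≤ 20 * N / I + 1 := by
      rw [hQ]
      push_cast
      have h2 : ((20 * (N : ℤ) / I : ℤ) : ℝ) ≤ 20 * N / I := by
        rw [le_div_iff₀ hIr]
        have h3 : (20 * (N : ℤ) / I) * I ≤ 20 * N := Int.ediv_mul_le _ hIpos.ne'
        exact_mod_cast h3
      linarith
    have h2 : (1 : ℝ) ≤ N / I := by
      rw [le_div_iff₀ hIr]; rw [one_mul]; exact_mod_cast hNI
    have h3 : (43 * N / I : ℝ) = 43 * (N / I) := by ring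
    have h4 : (20 * N / I : ℝ) = 20 * (N / I) := by ring
    rw [h3]; rw [h4] at h1; linarith
  have hBpos : (0 : ℝ) < B.card := by
    exact_mod_cast card_pos.mpr ⟨1, h.one_mem⟩
  have hNr : (0 : ℝ) < N := by exact_mod_cast hN0
  have hQ0 : (0 : ℝ) ≤ 2 * Q + 1 := by
    have : (0 : ℝ) ≤ Q := by exact_mod_cast hQpos
    linarith
  have e1 : (((2 * N + 1) ^ 2 : ℕ) : ℝ) * (τ * B.card) ≤ (43 * N / I) ^ 2 * (K ^ 2 * B.card) := by
    calc _ ≤ (((2 * N + 1) ^ 2 : ℕ) : ℝ) * S.card := by gcongr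
      _ ≤ _ := htot
      _ ≤ _ := by gcongr
  have e2 : (((2 * N + 1) ^ 2 : ℕ) : ℝ) * τ ≤ (43 * N / I) ^ 2 * K ^ 2 := by
    have : (((2 * N + 1) ^ 2 : ℕ) : ℝ) * τ * B.card ≤ (43 * N / I) ^ 2 * K ^ 2 * B.card := by
      linarith
    exact le_of_mul_le_mul_right this hBpos
  push_cast at e2
  have e3 : (4 * (N : ℝ) ^ 2) * τ ≤ (43 * N / I) ^ 2 * K ^ 2 := by
    refine le_trans ?_ e2
    gcongr
    nlinarith
  have e4 : (43 * N / I : ℝ) ^ 2 * K ^ 2 = 1849 * K ^ 2 / I ^ 2 * N ^ 2 := by field_simp; norm_num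
  rw [e4] at e3
  have hN2 : (0 : ℝ) < (N : ℝ) ^ 2 := by positivity
  have e5 : 4 * τ ≤ 1849 * K ^ 2 / I ^ 2 := by
    have : 4 * τ * (N : ℝ) ^ 2 ≤ 1849 * K ^ 2 / I ^ 2 * N ^ 2 := by linarith
    exact le_of_mul_le_mul_right this hN2
  rw [le_div_iff₀ (by positivity)] at e5
  nlinarith

end Loc

end Pool.Agent.Lib.MP_6a66b4_co
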