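import Mathlib
import Pool.Agent.Lib.MP_6a66b4_co.Main
import Pool.Agent.Lib.MP_6a66b4_co.Defs

set_option autoImplicit false

namespace Pool.Agent.Lib.MP_6a66b4_co

open scoped Pointwise
open Finset

universe u

namespace Loc

variable {G : Type u} [Group G] [DecidableEq G] {B : Finset G} {N : ℕ} {x y Z : G → ℝ}

lemma pow_mem {S : Finset G} (h1 : (1 : G) ∈ S) {a : G} (ha : a ∈ S * S) {k m : ℕ}
    (hkm : 2 * k ≤ m) : a ^ k ∈ S ^ m := by
  have h2 : a ^ k ∈ (S * S) ^ k := pow_mem_pow ha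
  have h3 : (S * S) ^ k = S ^ (2 * k) := by rw [← pow_two, pow_mul]
  rw [h3] at h2
  exact pow_subset_pow_right h1 hkm h2

/-- The finite statement with explicit constants. -/
theorem main (h : Loc B N x y Z) {K C' κ τ : ℝ} (hK : 1 ≤ K) (hτ : 0 < τ) (hC' : 1 ≤ C')
    (hκ : κ = 1 / (4 * C'))
    {X : Finset G} (hXc : (X.card : ℝ) ≤ K) (hX : B * B ⊆ X * B)
    (hB : K ^ 11 * B.card ≤ C' * N ^ 3)
    {k₂ : ℕ} (hk₂ : 728 * C' + 1 ≤ k₂)
    {S : Finset G} (hS1 : (1 : G) ∈ S) (hSinv : S⁻¹ = S)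
    (hSB : S ⊆ B * B) (hSc : τ * B.card ≤ S.card) (hSk : S ^ (2 * k₂) ⊆ B ^ 4)
    {I : ℕ} (hI : 1 ≤ I) (hIτ : 1700 * K ^ 2 < I ^ 2 * τ) (hNI : I ≤ N) (hN2 : 2 ≤ N)
    (hIN : 2 * I ≤ κ * N) : False := by
  have hκ0 : 0 < κ := by rw [hκ]; positivity
  have hκC : κ * C' = 1 / 4 := by rw [hκ]; field_simp
  have hκ1 : κ ≤ 1 := by
    have : κ * 1 ≤ κ * C' := mul_le_mul_of_nonneg_left hC' hκ0.le
    linarith
  have hNpos : (0 : ℝ) < N := by exact_mod_cast h.Npos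
  obtain ⟨a, ha, i, j, hax, hay, hiI, hjI, hij⟩ :=
    h.exists_small hK hτ hXc hX hSinv hSB hSc hI hIτ hNI
  -- powers of a
  have hk₂1 : 1 ≤ k₂ := by
    have : (1 : ℝ) ≤ k₂ := by linarith
    exact_mod_cast this
  have hapow : ∀ k ≤ k₂, a ^ k ∈ B ^ 4 := fun k hk => hSk (pow_mem hS1 ha (by omega))
  have m4 := h.mono (show 4 ≤ 12 by norm_num)
  have ha4 : a ∈ B ^ 4 := by simpa using hapow 1 hk₂1
  have haxy : ∀ k ≤ k₂, x (a ^ k) = k * x a ∧ y (a ^ k) = k * y a := by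
    intro k
    induction k with
    | zero =>
      intro _
      obtain ⟨h1, h2, _⟩ := h.at_one
      simp [h1, h2]
    | succ k ih =>
      intro hk
      obtain ⟨h1, h2⟩ := ih (by omega)
      have e : a ^ (k + 1) = a ^ k * a := pow_succ a k
      have h3 := hapow k (by omega)
      have h4 := hapow (k + 1) hk
      rw [e] at h4 ⊢
      rw [h.addx _ (m4 h3) _ (m4 ha4) (m4 h4), h.addy _ (m4 h3) _ (m4 ha4) (m4 h4), h1, h2]
      push_cast
      exact ⟨by ring, by ring⟩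
  -- the element b
  obtain ⟨b, hb, D, hD, hD1, hD2⟩ : ∃ b ∈ B, ∃ D : ℝ, D = (x a * y b - x b * y a) / N ∧
      κ / 2 ≤ D ∧ D ≤ κ := by
    by_cases hi : i = 0
    · have hj : j ≠ 0 := by
        rcases hij with h | h
        · exact absurd hi h
        · exact h
      obtain ⟨q, hq, h1, h2⟩ := exists_mult hκ0 hκ1 hIN hN2 hj hjI
      obtain ⟨b, hb, hbx, hby⟩ := h.grid (-q) 0 (by rwa [abs_neg]) (by simp)
      refine ⟨b, hb, _, rfl, ?_, ?_⟩
      · rw [hax, hay, hbx, hby]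
        refine h1.trans (le_of_eq ?_)
        push_cast; ring
      · rw [hax, hay, hbx, hby]
        refine le_trans (le_of_eq ?_) h2
        push_cast; ring
    · obtain ⟨q, hq, h1, h2⟩ := exists_mult hκ0 hκ1 hIN hN2 hi hiI
      obtain ⟨b, hb, hbx, hby⟩ := h.grid 0 q (by simp) hq
      refine ⟨b, hb, _, rfl, ?_, ?_⟩
      · rw [hax, hay, hbx, hby]
        refine h1.trans (le_of_eq ?_)
        push_cast; ring
      · rw [hax, hay, hbx, hby]
        refine le_trans (le_of_eq ?_) h2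
        push_cast; ring
  have hD0 : 0 < D := by linarith
  -- conjugates
  have hβ : ∀ k ≤ k₂, a ^ k * b * (a ^ k)⁻¹ ∈ B ^ 9 ∧ x (a ^ k * b * (a ^ k)⁻¹) = x b ∧
      y (a ^ k * b * (a ^ k)⁻¹) = y b ∧ |Z (a ^ k * b * (a ^ k)⁻¹) - Z b - k * D| ≤ 40 := by
    intro k hk
    obtain ⟨c1, c2, c3, c4⟩ := h.conj (hapow k hk) hb
    refine ⟨c1, c2, c3, ?_⟩
    obtain ⟨h1, h2⟩ := haxy k hk
    rw [h1, h2] at c4
    have e : ((k : ℝ) * x a * y b - x b * (k * y a)) / N = k * D := by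
      rw [hD]; ring
    rwa [e] at c4
  have hkr : ∀ k ≤ k₂, (k : ℝ) ≤ k₂ := fun k hk => by exact_mod_cast hk
  by_cases hinj : Set.InjOn (fun k : ℕ => a ^ k * b * (a ^ k)⁻¹) (range (k₂ + 1) : Set ℕ)
  · -- many conjugates
    set W : Finset G := (range (k₂ + 1)).image (fun k : ℕ => a ^ k * b * (a ^ k)⁻¹) with hW
    have hWc : W.card = k₂ + 1 := by
      rw [hW, card_image_of_injOn hinj, card_range]
    set R : ℝ := k₂ * κ + 80 with hR
    have hR0 : 0 ≤ R := by rw [hR]; positivity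
    set s : ℕ := ⌊101 + R⌋₊ + 1 with hs
    have hs1 : 101 + R < s := by rw [hs]; push_cast; exact Nat.lt_floor_add_one _
    have hs2 : (s : ℝ) ≤ 102 + R := by
      have : (⌊101 + R⌋₊ : ℝ) ≤ 101 + R := Nat.floor_le (by linarith)
      rw [hs]; push_cast; linarith
    have key := h.card_window W (by
      intro w hw
      rw [hW, mem_image] at hw
      obtain ⟨k, hk, rfl⟩ := hw
      exact (hβ k (by rw [mem_range] at hk; omega)).1) (x b) (y b) R s (by linarith) hR0 (by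
      intro w hw
      rw [hW, mem_image] at hw
      obtain ⟨k, hk, rfl⟩ := hw
      have := hβ k (by rw [mem_range] at hk; omega)
      exact ⟨this.2.1, this.2.2.1⟩) (by
      intro w hw w' hw'
      rw [hW, mem_image] at hw hw'
      obtain ⟨k, hk, rfl⟩ := hw
      obtain ⟨k', hk', rfl⟩ := hw'
      rw [mem_range] at hk hk'
      obtain ⟨_, _, _, h1⟩ := hβ k (by omega)
      obtain ⟨_, _, _, h2⟩ := hβ k' (by omega)
      have hk3 : (k : ℝ) * D ≤ k₂ * κ :=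
        mul_le_mul (hkr k (by omega)) hD2 hD0.le (by positivity)
      have hk3' : (k' : ℝ) * D ≤ k₂ * κ :=
        mul_le_mul (hkr k' (by omega)) hD2 hD0.le (by positivity)
      have hk4 : (0 : ℝ) ≤ (k : ℝ) * D := by positivity
      have hk4' : (0 : ℝ) ≤ (k' : ℝ) * D := by positivity
      rw [abs_le] at h1 h2 ⊢
      constructor <;> linarith)
    have hs0 : (0 : ℝ) < s := by linarith
    have h1 : (B ^ 12).card ≤ X.card ^ 11 * B.card := pow_card_le hX 11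
    have h2 : (((2 * N + 1) * (N / 2 + 1) * (N / (2 * s) + 1) * W.card : ℕ) : ℝ) ≤
        ((X.card ^ 11 * B.card : ℕ) : ℝ) := by exact_mod_cast key.trans h1
    have h3 : ((X.card ^ 11 * B.card : ℕ) : ℝ) ≤ K ^ 11 * B.card := by
      push_cast
      gcongr
    have h4 : (2 * N : ℝ) * (N / 2) * (N / (2 * s)) * (k₂ + 1) ≤
        (((2 * N + 1) * (N / 2 + 1) * (N / (2 * s) + 1) * W.card : ℕ) : ℝ) := by
      rw [hWc]
      have e1 : ((N : ℝ) / 2) ≤ ((N / 2 : ℕ) : ℝ) + 1 := by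
        have h5 : N ≤ 2 * (N / 2 + 1) := by omega
        have h6 : (N : ℝ) ≤ 2 * (((N / 2 : ℕ) : ℝ) + 1) := by exact_mod_cast h5
        linarith
      have e2 : ((N : ℝ) / (2 * s)) ≤ ((N / (2 * s) : ℕ) : ℝ) + 1 := by
        rw [div_le_iff₀ (by positivity)]
        have h5 : N ≤ (N / (2 * s) + 1) * (2 * s) := by
          have h6 : N < 2 * s * (N / (2 * s) + 1) :=
            Nat.lt_mul_div_succ N (by rw [hs]; positivity)
          linarith
        exact_mod_cast h5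
      push_cast
      gcongr
      linarith
    have h5 : (2 * N : ℝ) * (N / 2) * (N / (2 * s)) * (k₂ + 1) = (k₂ + 1) / (2 * s) * N ^ 3 := by
      field_simp
    rw [h5] at h4
    have h6 : ((k₂ : ℝ) + 1) / (2 * s) * N ^ 3 ≤ C' * N ^ 3 := by linarith
    have h7 : ((k₂ : ℝ) + 1) / (2 * s) ≤ C' := le_of_mul_le_mul_right h6 (by positivity)
    rw [div_le_iff₀ (by positivity)] at h7
    have h8 : C' * (2 * s) ≤ C' * (2 * (102 + R)) := by gcongr
    have h9 : C' * (2 * (102 + R)) = k₂ / 2 + 364 * C' := by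
      rw [hR]
      have : C' * (2 * (102 + (k₂ * κ + 80))) = 2 * k₂ * (κ * C') + 364 * C' := by ring
      rw [this, hκC]; ring
    linarith
  · -- a power of `a` commutes with `b`
    rw [Set.InjOn] at hinj
    push Not at hinj
    obtain ⟨k, hk, k', hk', heq, hne⟩ := hinj
    rw [mem_coe, mem_range] at hk hk'
    obtain ⟨e, he1, he2, hcomm⟩ : ∃ e : ℕ, 1 ≤ e ∧ e ≤ k₂ ∧ Commute (a ^ e) b := by
      have hmain : ∀ k k' : ℕ, k < k' → a ^ k * b * (a ^ k)⁻¹ = a ^ k' * b * (a ^ k')⁻¹ →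
          Commute (a ^ (k' - k)) b := by
        intro k k' hlt heq
        obtain ⟨d, rfl⟩ := Nat.exists_eq_add_of_lt hlt
        have e1 : k + d + 1 - k = d + 1 := by omega
        rw [e1]
        have e2 : a ^ (k + d + 1) = a ^ k * a ^ (d + 1) := by rw [← pow_add, add_assoc]
        rw [e2] at heq
        have e3 : b = a ^ (d + 1) * b * (a ^ (d + 1))⁻¹ := by
          have := congrArg (fun g => (a ^ k)⁻¹ * g * a ^ k) heq
          calc b = (a ^ k)⁻¹ * (a ^ k * b * (a ^ k)⁻¹) * a ^ k := by group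
            _ = (a ^ k)⁻¹ * (a ^ k * a ^ (d + 1) * b * (a ^ k * a ^ (d + 1))⁻¹) * a ^ k := this
            _ = _ := by group
        rw [commute_iff_eq]
        calc a ^ (d + 1) * b = (a ^ (d + 1) * b * (a ^ (d + 1))⁻¹) * a ^ (d + 1) := by group
          _ = b * a ^ (d + 1) := by rw [← e3]
      rcases lt_or_gt_of_ne hne with hlt | hlt
      · exact ⟨k' - k, by omega, by omega, hmain k k' hlt heq⟩
      · exact ⟨k - k', by omega, by omega, hmain k' k hlt heq.symm⟩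
    set n : ℕ := k₂ / e with hn
    have hne1 : n * e ≤ k₂ := Nat.div_mul_le_self _ _
    have hn1 : 1 ≤ n := by
      rw [hn, Nat.one_le_div_iff (by omega)]; exact he2
    have hne2 : k₂ ≤ 2 * (n * e) := by
      have h1 : k₂ < e * (n + 1) := Nat.lt_mul_div_succ k₂ (by omega)
      have h2 : e * 1 ≤ e * n := Nat.mul_le_mul_left e hn1
      nlinarith
    obtain ⟨_, _, _, h1⟩ := hβ (n * e) hne1
    have hc2 : Commute (a ^ (n * e)) b := by
      rw [mul_comm, pow_mul]; exact hcomm.pow_left n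
    have e1 : a ^ (n * e) * b * (a ^ (n * e))⁻¹ = b := by
      rw [hc2.eq, mul_inv_cancel_right]
    rw [e1] at h1
    have e2 : Z b - Z b - ((n * e : ℕ) : ℝ) * D = -(((n * e : ℕ) : ℝ) * D) := by ring
    rw [e2, abs_neg, abs_of_nonneg (by positivity)] at h1
    have h2 : (k₂ : ℝ) / 2 ≤ ((n * e : ℕ) : ℝ) := by
      have : (k₂ : ℝ) ≤ 2 * ((n * e : ℕ) : ℝ) := by exact_mod_cast hne2
      linarith
    have h3 : (k₂ : ℝ) / 2 * (κ / 2) ≤ ((n * e : ℕ) : ℝ) * D := by gcongr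
    have h4 : (k₂ : ℝ) * κ ≤ 160 := by linarith
    have h5 : (k₂ : ℝ) * κ * C' ≤ 160 * C' := by gcongr
    have h6 : (k₂ : ℝ) * κ * C' = k₂ / 4 := by
      rw [mul_assoc, hκC]; ring
    linarith

end Loc

/-- from the definition to scaled coordinates -/
lemma toLoc {G : Type u} [Group G] [DecidableEq G] {K : ℝ} {N : ℕ} {B : Set G} {φ : G → ℝ × ℝ × ℝ}
    (hN : 0 < N) (hadm : AdmissibleOnPower K N 12 B φ) (hfin : B.Finite) :
    Loc hfin.toFinset N (fun g => N * (φ g).1) (fun g => N * (φ g).2.1)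
      (fun g => N * (φ g).2.2) := by
  obtain ⟨⟨h1, hsymm, _⟩, hval, hgrid, hcoc⟩ := hadm
  have hNr : (0 : ℝ) < N := by exact_mod_cast hN
  have hpow : ∀ g : G, g ∈ hfin.toFinset ^ 12 ↔ g ∈ B ^ 12 := by
    intro g
    rw [← mem_coe, coe_pow, hfin.coe_toFinset]
  have hco : ∀ b ∈ hfin.toFinset ^ 12, ∀ c ∈ hfin.toFinset ^ 12, b * c ∈ hfin.toFinset ^ 12 →
      (φ (b * c)).1 = (φ b).1 + (φ c).1 ∧ (φ (b * c)).2.1 = (φ b).2.1 + (φ c).2.1 ∧
      |(φ (b * c)).2.2 - (φ b).2.2 - (φ c).2.2 - (φ b).1 * (φ c).2.1| ≤ 10 / N := by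
    intro b hb c hc hbc
    obtain ⟨z, hz, he⟩ := hcoc b ((hpow b).mp hb) c ((hpow c).mp hc) ((hpow _).mp hbc)
    simp only [hmul, hinv, Prod.mk.injEq] at he
    obtain ⟨e1, e2, e3⟩ := he
    have f1 : (φ (b * c)).1 = (φ b).1 + (φ c).1 := by linarith
    have f2 : (φ (b * c)).2.1 = (φ b).2.1 + (φ c).2.1 := by linarith
    refine ⟨f1, f2, ?_⟩
    rw [f2] at e3
    have f3 : (φ (b * c)).2.2 - (φ b).2.2 - (φ c).2.2 - (φ b).1 * (φ c).2.1 = z := by
      rw [← e3]; ring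
    rw [f3]; exact hz
  refine ⟨by simpa using h1, ?_, hN, ?_, ?_, ?_, ?_, ?_⟩
  · ext g
    rw [mem_inv']
    simp only [Set.Finite.mem_toFinset]
    exact ⟨fun hg => by have := hsymm _ hg; rwa [inv_inv] at this, fun hg => hsymm _ hg⟩
  · intro b hb c hc hbc
    simp only [(hco b hb c hc hbc).1]; ring
  · intro b hb c hc hbc
    simp only [(hco b hb c hc hbc).2.1]; ring
  · intro b hb c hc hbc
    have h2 := (hco b hb c hc hbc).2.2
    have e : (N : ℝ) * (φ (b * c)).2.2 - N * (φ b).2.2 - N * (φ c).2.2 -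
        (N * (φ b).1) * (N * (φ c).2.1) / N =
        N * ((φ (b * c)).2.2 - (φ b).2.2 - (φ c).2.2 - (φ b).1 * (φ c).2.1) := by
      field_simp
    rw [e, abs_mul, abs_of_pos hNr]
    calc (N : ℝ) * _ ≤ N * (10 / N) := by gcongr
      _ = 10 := by field_simp
  · intro b hb
    rw [Set.Finite.mem_toFinset] at hb
    obtain ⟨⟨i, hi⟩, ⟨j, hj⟩, h3, h4, _⟩ := hval b hb
    refine ⟨i, j, ?_, ?_, ?_, ?_⟩
    · simp only [hi]; field_simp
    · simp only [hj]; field_simp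
    · rw [hi, abs_div, Nat.abs_cast, div_le_iff₀ hNr] at h3
      exact_mod_cast h3
    · rw [hj, abs_div, Nat.abs_cast, div_le_iff₀ hNr] at h4
      exact_mod_cast h4
  · intro i j hi hj
    have aux : ∀ t : ℤ, |t| ≤ N → |(t : ℝ) / N| ≤ 1 := by
      intro t ht
      rw [abs_div, Nat.abs_cast, div_le_one hNr]
      exact_mod_cast ht
    obtain ⟨z, _, b, hb, hφ⟩ := hgrid i j (aux i hi) (aux j hj)
    refine ⟨b, by simpa using hb, ?_, ?_⟩
    · simp only [hφ]; field_simp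
    · simp only [hφ]; field_simp

theorem local_main (K C : ℝ) : ∃ N₀ : ℕ, ∀ N ≥ N₀, ∀ (G : Type u) [Group G] (B : Set G)
    (φ : G → ℝ × ℝ × ℝ), AdmissibleOnPower K N 12 B φ → B.Finite →
      C * (N : ℝ) ^ 3 < B.ncard := by
  classical
  set K' : ℝ := max K 1 with hK'
  have hK1 : 1 ≤ K' := le_max_right _ _
  set C' : ℝ := max (K' ^ 11 * C) 1 with hC'
  have hC1 : 1 ≤ C' := le_max_right _ _
  obtain ⟨k₂, hk₂⟩ := exists_nat_ge (728 * C' + 1)
  obtain ⟨τ, hτ, hSan⟩ := sanders.{u} K' hK1 (2 * k₂)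
  obtain ⟨I, hI⟩ := exists_nat_gt (1700 * K' ^ 2 / τ + 1)
  have hI1 : (1 : ℝ) ≤ I := by
    have : 0 ≤ 1700 * K' ^ 2 / τ := by positivity
    linarith
  have hIτ : 1700 * K' ^ 2 < I ^ 2 * τ := by
    have h1 : 1700 * K' ^ 2 / τ < I := by linarith
    rw [div_lt_iff₀ hτ] at h1
    nlinarith
  obtain ⟨N₀, hN₀⟩ := exists_nat_ge (8 * I * C' + 2)
  refine ⟨N₀, ?_⟩
  intro N hN G _ B φ hadm hfin
  have hNr : 8 * I * C' + 2 ≤ N := hN₀.trans (by exact_mod_cast hN)
  have hIC : (I : ℝ) * 1 ≤ I * C' := by gcongr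
  have hN2 : 2 ≤ N := by
    have : (2 : ℝ) ≤ N := by nlinarith
    exact_mod_cast this
  have hIN : I ≤ N := by
    have : (I : ℝ) ≤ N := by nlinarith
    exact_mod_cast this
  have hloc := toLoc (by omega) hadm hfin
  obtain ⟨⟨_, _, X, hXK, hX⟩, _⟩ := hadm
  have hXc : (X.card : ℝ) ≤ K' := hXK.trans (le_max_left _ _)
  have hXB : hfin.toFinset * hfin.toFinset ⊆ X * hfin.toFinset := by
    intro g hg
    obtain ⟨b, hb, c, hc, rfl⟩ := mem_mul.mp hg
    rw [Set.Finite.mem_toFinset] at hb hc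
    obtain ⟨x, hx, e, he, hbc⟩ := hX b hb c hc
    rw [hbc]
    exact mul_mem_mul hx (by simpa using he)
  have hdbl : ((hfin.toFinset * hfin.toFinset).card : ℝ) ≤ K' * hfin.toFinset.card := by
    have h1 : (hfin.toFinset * hfin.toFinset).card ≤ X.card * hfin.toFinset.card :=
      (card_le_card hXB).trans card_mul_le
    have h2 : ((hfin.toFinset * hfin.toFinset).card : ℝ) ≤ X.card * hfin.toFinset.card := by
      exact_mod_cast h1
    refine h2.trans ?_
    gcongr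
  obtain ⟨S, hS1, hS2, hS3, hS4, hS5⟩ := hSan G hfin.toFinset hloc.one_mem hloc.inv_eq hdbl
  by_contra hcon
  push Not at hcon
  rw [Set.ncard_eq_toFinset_card B hfin] at hcon
  apply hloc.main (κ := 1 / (4 * C')) hK1 hτ hC1 rfl hXc hXB ?_ hk₂ hS1 hS2 hS3 hS4 hS5
    (by exact_mod_cast hI1) hIτ hIN hN2 ?_
  · have h1 : K' ^ 11 * (hfin.toFinset.card : ℝ) ≤ K' ^ 11 * (C * (N : ℝ) ^ 3) := by gcongr
    have h2 : K' ^ 11 * (C * (N : ℝ) ^ 3) ≤ C' * (N : ℝ) ^ 3 := by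
      rw [← mul_assoc]
      have := le_max_left (K' ^ 11 * C) 1
      gcongr
    exact h1.trans h2
  · rw [one_div, inv_mul_eq_div, le_div_iff₀ (by positivity)]
    linarith

end Pool.Agent.Lib.MP_6a66b4_co
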